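import Mathlib
import Pool.Agent.J4.H38.BP.Defs

/-! Project BP (helper38), pieces B3 and B4: the number of the integers all of whose shifts are rough, relative to a fixed set
of shifts. -/

set_option autoImplicit false

namespace Pool.Agent.J4.H14.BP

open Finset Filter
open Pool.Agent.Y822 (Ro ro)
open Pool.Agent.J4.H38.SR (rT fT VT rT_eq pz_eq)
open Pool.Agent.J4.H38.DV (AW Fs Ft)
open Pool.Agent.J4.H38.BP
open Pool.Agent.W41 (JJ)
open Pool.Agent.H373R2.T7 (pz Vz mem_pz)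

/-- the number of the forbidden classes -/
lemma card_cls (S : Finset ℤ) (z : ℕ) {p : ℕ} (hp : 0 < p) :
    ((range p).filter (fun a : ℕ => ∃ s ∈ S, (p : ℤ) ∣ (a : ℤ) + z + s)).card = eZ S p := by
  classical
  unfold eZ
  have hp0 : (p : ℤ) ≠ 0 := by exact_mod_cast hp.ne'
  have hpp : (0 : ℤ) < p := by exact_mod_cast hp
  refine card_bij (fun (a : ℕ) _ => (-((a : ℤ) + z)) % (p : ℤ)) ?_ ?_ ?_
  · intro a ha
    rw [mem_filter] at ha
    obtain ⟨_, s, hs, hd⟩ := ha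
    rw [mem_image]
    refine ⟨s, hs, ?_⟩
    have : s ≡ -((a : ℤ) + z) [ZMOD p] := by
      rw [Int.modEq_iff_dvd]
      have e : -((a : ℤ) + z) - s = -((a : ℤ) + z + s) := by ring
      rw [e]
      exact (dvd_neg).2 hd
    exact this
  · intro a ha b hb h
    rw [mem_filter, mem_range] at ha hb
    have h1 : -((a : ℤ) + z) ≡ -((b : ℤ) + z) [ZMOD p] := h
    rw [Int.modEq_iff_dvd] at h1
    have e : -((b : ℤ) + z) - -((a : ℤ) + z) = (a : ℤ) - b := by ring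
    rw [e] at h1
    have h3 : (a : ℤ) - b = 0 := by
      apply Int.eq_zero_of_abs_lt_dvd h1
      rw [abs_lt]
      constructor <;> omega
    omega
  · intro c hc
    rw [mem_image] at hc
    obtain ⟨s, hs, rfl⟩ := hc
    have h0 := Int.emod_nonneg (-((z : ℤ) + s)) hp0
    have h1 := Int.emod_lt_of_pos (-((z : ℤ) + s)) hpp
    have h2 : (((-((z : ℤ) + s)) % (p : ℤ)).toNat : ℤ) = (-((z : ℤ) + s)) % (p : ℤ) := Int.toNat_of_nonneg h0
    have h3 : (-((z : ℤ) + s)) % (p : ℤ) ≡ -((z : ℤ) + s) [ZMOD p] := Int.mod_modEq _ _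
    refine ⟨((-((z : ℤ) + s)) % (p : ℤ)).toNat, ?_, ?_⟩
    · rw [mem_filter, mem_range]
      refine ⟨by omega, s, hs, ?_⟩
      rw [h2]
      have h4 : (-((z : ℤ) + s)) % (p : ℤ) + z + s ≡ -((z : ℤ) + s) + z + s [ZMOD p] :=
        (h3.add_right _).add_right _
      have e : -((z : ℤ) + s) + z + s = 0 := by ring
      rw [e] at h4
      exact (Int.modEq_zero_iff_dvd).1 h4
    · rw [h2]
      have h4 : -((-((z : ℤ) + s)) % (p : ℤ) + z) ≡ -(-((z : ℤ) + s) + z) [ZMOD p] := (h3.add_right _).neg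
      have e : -(-((z : ℤ) + s) + z) = s := by ring
      rw [e] at h4
      exact h4

lemma fz_dvd (T0 : Finset ℕ) (z a p : ℕ) :
    (∃ s ∈ fz T0 z, (p : ℤ) ∣ (a : ℤ) + z + s) ↔ ∃ h ∈ T0, p ∣ a + h := by
  unfold fz
  constructor
  · rintro ⟨s, hs, hd⟩
    obtain ⟨h, hh, rfl⟩ := mem_image.1 hs
    refine ⟨h, hh, ?_⟩
    have e : (a : ℤ) + z + ((h : ℤ) - z) = ((a + h : ℕ) : ℤ) := by push_cast; ring
    rw [e] at hd
    exact Int.natCast_dvd_natCast.1 hd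
  · rintro ⟨h, hh, hd⟩
    refine ⟨(h : ℤ) - z, mem_image_of_mem _ hh, ?_⟩
    have e : (a : ℤ) + z + ((h : ℤ) - z) = ((a + h : ℕ) : ℤ) := by push_cast; ring
    rw [e]
    exact Int.natCast_dvd_natCast.2 hd

lemma fT_fz (T0 : Finset ℕ) (z : ℕ) {p : ℕ} (hp : 0 < p) : fT T0 p = eZ (fz T0 z) p := by
  classical
  rw [← card_cls (fz T0 z) z hp]
  unfold fT
  congr 1
  exact filter_congr fun a _ => (fz_dvd T0 z a p).symm

lemma eZ_le (S : Finset ℤ) (p : ℕ) : eZ S p ≤ S.card := card_image_le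

lemma eZ_le_p (S : Finset ℤ) {p : ℕ} (hp : 0 < p) : eZ S p ≤ p := by
  classical
  rw [← card_cls S 0 hp]
  exact (card_filter_le _ _).trans (by simp)

/-- the forbidden classes -/
def RB (T0 : Finset ℕ) (S : Finset ℤ) (z y p a : ℕ) : Prop :=
  (∃ h ∈ T0, p ∣ a + h) ∨ (p ≤ y ∧ ∃ s ∈ S, (p : ℤ) ∣ (a : ℤ) + z + s)

open Classical in
lemma card_RB (T0 : Finset ℕ) (S : Finset ℤ) {z w y p : ℕ} (hz : z ∈ T0) (hS : ∀ s ∈ S, ∀ q ∈ pz w, (q : ℤ) ∣ s)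
    (hp : p.Prime) : ((range p).filter (fun a => RB T0 S z y p a)).card =
      if w < p ∧ p ≤ y then eZ (fz T0 z ∪ S) p else eZ (fz T0 z) p := by
  split_ifs with h
  · rw [← card_cls (fz T0 z ∪ S) z hp.pos]
    congr 1
    refine filter_congr fun a _ => ?_
    unfold RB
    rw [← fz_dvd T0 z a p]
    constructor
    · rintro (⟨s, hs, hd⟩ | ⟨_, s, hs, hd⟩)
      · exact ⟨s, mem_union_left _ hs, hd⟩
      · exact ⟨s, mem_union_right _ hs, hd⟩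
    · rintro ⟨s, hs, hd⟩
      rcases mem_union.1 hs with hs | hs
      · exact Or.inl ⟨s, hs, hd⟩
      · exact Or.inr ⟨h.2, s, hs, hd⟩
  · rw [← card_cls (fz T0 z) z hp.pos]
    congr 1
    refine filter_congr fun a _ => ?_
    unfold RB
    rw [← fz_dvd T0 z a p]
    constructor
    · rintro (h1 | ⟨h1, s, hs, hd⟩)
      · exact h1
      · have hpw : p ≤ w := by
          by_contra hc
          exact h ⟨by omega, h1⟩
        refine ⟨(z : ℤ) - z, mem_image_of_mem _ hz, ?_⟩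
        have h2 := hS s hs p (mem_pz.2 ⟨hpw, hp⟩)
        have h3 : (p : ℤ) ∣ (a : ℤ) + z := by
          have := dvd_sub hd h2
          rwa [add_sub_cancel_right] at this
        rwa [sub_self, add_zero]
    · exact Or.inl

lemma RB_mod (T0 : Finset ℕ) (S : Finset ℤ) (z y p n : ℕ) : RB T0 S z y p (n % p) ↔ RB T0 S z y p n := by
  unfold RB
  have h1 : ∀ h : ℕ, p ∣ n % p + h ↔ p ∣ n + h := by
    intro h
    have e : n % p + h ≡ n + h [MOD p] := (Nat.mod_modEq n p).add_right h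
    rw [← Nat.modEq_zero_iff_dvd, ← Nat.modEq_zero_iff_dvd]
    exact ⟨fun h1 => e.symm.trans h1, fun h1 => e.trans h1⟩
  have h2 : ∀ s : ℤ, (p : ℤ) ∣ ((n % p : ℕ) : ℤ) + z + s ↔ (p : ℤ) ∣ (n : ℤ) + z + s := by
    intro s
    have e0 : ((n % p : ℕ) : ℤ) ≡ (n : ℤ) [ZMOD p] := by
      rw [Int.natCast_mod]
      exact Int.mod_modEq _ _
    have e : ((n % p : ℕ) : ℤ) + z + s ≡ (n : ℤ) + z + s [ZMOD p] := (e0.add_right _).add_right _
    rw [← Int.modEq_zero_iff_dvd, ← Int.modEq_zero_iff_dvd]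
    exact ⟨fun h1 => e.symm.trans h1, fun h1 => e.trans h1⟩
  simp only [h1, h2]

/-- the product of the local factors -/
lemma prod_RB (T0 : Finset ℕ) (S : Finset ℤ) {m Δ z w y y0 : ℕ} (hm : T0.card = m) (hΔ : ∀ h ∈ T0, h ≤ Δ)
    (hz : z ∈ T0) (hΔw : Δ < w) (hyy : y ≤ y0) (f : ℕ → ℕ)
    (hf : ∀ p ∈ pz y0, f p = if w < p ∧ p ≤ y then eZ (fz T0 z ∪ S) p else eZ (fz T0 z) p) :
    ∏ p ∈ pz y0, (1 - (f p : ℝ) / p) = VT y0 T0 * PB (fz T0 z) S w y := by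
  classical
  have hPB : PB (fz T0 z) S w y = ∏ p ∈ pz y0, (if w < p ∧ p ≤ y then
      (1 - ((eZ (fz T0 z ∪ S) p : ℝ) - eZ (fz T0 z) p) / ((p : ℝ) - eZ (fz T0 z) p)) else 1) := by
    unfold PB
    rw [← prod_filter]
    refine prod_congr ?_ fun _ _ => rfl
    ext p
    rw [mem_filter, mem_filter, mem_pz, mem_pz]
    constructor
    · rintro ⟨⟨h1, h2⟩, h3⟩
      exact ⟨⟨h1.trans hyy, h2⟩, h3, h1⟩
    · rintro ⟨⟨_, h2⟩, h3, h1⟩
      exact ⟨⟨h1, h2⟩, h3⟩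
  have hVT : VT y0 T0 = ∏ p ∈ pz y0, (1 - (eZ (fz T0 z) p : ℝ) / p) := by
    unfold VT
    rw [pz_eq]
    refine prod_congr rfl fun p hp => ?_
    rw [fT_fz T0 z (mem_pz.1 hp).2.pos]
  rw [hPB, hVT, ← prod_mul_distrib]
  refine prod_congr rfl fun p hp => ?_
  rw [hf p hp]
  have hpp := (mem_pz.1 hp).2
  split_ifs with h
  · have h1 : eZ (fz T0 z) p < p := by
      have h2 : eZ (fz T0 z) p ≤ T0.card := (eZ_le _ _).trans card_image_le
      have h3 : T0.card ≤ Δ + 1 := by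
        have h4 : T0 ⊆ range (Δ + 1) := fun h hh => mem_range.2 (by have := hΔ h hh; omega)
        simpa using card_le_card h4
      omega
    have h2 : (0 : ℝ) < (p : ℝ) - eZ (fz T0 z) p := by
      have : (eZ (fz T0 z) p : ℝ) < p := by exact_mod_cast h1
      linarith
    have h3 : (p : ℝ) ≠ 0 := by exact_mod_cast hpp.ne_zero
    have h4 := h2.ne'
    field_simp
    ring
  · rw [mul_one]

lemma abs_core {A V X N E b Δ : ℝ} (hV0 : 0 ≤ V) (hV1 : V ≤ 1) (hb : 0 ≤ b) (hXN : X ≤ N) (hNX : N - Δ ≤ X) (hΔ : 0 ≤ Δ)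
    (h : |A - X * V| ≤ b * (X * V) + E) : |A - N * V| ≤ b * (N * V) + (E + Δ) := by
  have h1 : X * V ≤ N * V := mul_le_mul_of_nonneg_right hXN hV0
  have h2 : N * V - X * V ≤ Δ := by
    have h3 : (N - X) * V ≤ Δ * 1 := mul_le_mul (by linarith) hV1 hV0 hΔ
    linarith
  have h3 : b * (X * V) ≤ b * (N * V) := mul_le_mul_of_nonneg_left h1 hb
  obtain ⟨h4, h5⟩ := abs_le.1 h
  rw [abs_le]
  constructor <;> linarith

lemma JJ_bd {y : ℕ} (hy : 2 ≤ y) : JJ y + 2 ≤ 2 * y := by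
  rcases hy.eq_or_lt with rfl | hy
  · decide
  · exact Pool.Agent.W41.JJ_small y hy

open Classical in
theorem core (m k Δ : ℕ) : ∃ C0 : ℕ, 1 ≤ C0 ∧ ∀ b : ℕ, C0 ≤ b → ∀ᶠ N : ℕ in atTop, ∀ T0 : Finset ℕ, T0.card = m →
    (∀ h ∈ T0, h ≤ Δ) → ∀ z ∈ T0, ∀ w y y0 : ℕ, 2 ≤ w → Δ < w → w ≤ y → y ≤ y0 → y0 ^ (C0 * b) ≤ N →
    ∀ S : Finset ℤ, S.card ≤ k → (∀ s ∈ S, ∀ q ∈ pz w, (q : ℤ) ∣ s) →
    |∑ q ∈ Icc 1 N, muB T0 z y0 q * (if ∀ s ∈ S, ∀ p ∈ pz y, ¬ (p : ℤ) ∣ (q : ℤ) + s then 1 else 0) -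
      N * VT y0 T0 * PB (fz T0 z) S w y| ≤
      (1 / 2) ^ b * (N * VT y0 T0 * PB (fz T0 z) S w y) + (N : ℝ) ^ (1 / 2 : ℝ) := by
  obtain ⟨C0, K0, hC0, hK0, hfl⟩ := Pool.Agent.TH892.SW.fl_set (m + k)
  refine ⟨16 * C0, by omega, fun b hb => ?_⟩
  have hev : ∀ᶠ N : ℕ in atTop, (2 * (K0 : ℝ) + Δ) ≤ (N : ℝ) ^ (3 / 16 : ℝ) :=
    ((tendsto_rpow_atTop (by norm_num : (0 : ℝ) < 3 / 16)).comp tendsto_natCast_atTop_atTop).eventually_ge_atTop _
  filter_upwards [hev, eventually_ge_atTop 1] with N hN hN1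
  intro T0 hm hΔ z hz w y y0 hw hΔw hwy hyy hyN S hSk hS
  have hy2 : 2 ≤ y0 := by omega
  have hz' := hΔ z hz
  have hcardR : ∀ p ∈ pz y0, ((range p).filter (fun a => RB T0 S z y p a)).card =
      if w < p ∧ p ≤ y then eZ (fz T0 z ∪ S) p else eZ (fz T0 z) p :=
    fun p hp => card_RB T0 S hz hS (mem_pz.1 hp).2
  have hle0 : ∀ p, eZ (fz T0 z) p ≤ m := fun p => (eZ_le _ _).trans (card_image_le.trans hm.le)
  have key := hfl b (by omega) y0 hy2 (N - z) (pz y0) (fun p a => RB T0 S z y p a) (fun p hp => by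
    refine ⟨(mem_pz.1 hp).2, (mem_pz.1 hp).1, ?_⟩
    rw [hcardR p hp]
    split_ifs
    · refine (eZ_le _ _).trans ((card_union_le _ _).trans (Nat.add_le_add ?_ hSk))
      exact card_image_le.trans hm.le
    · exact (hle0 p).trans (by omega))
  have hprod := prod_RB T0 S hm hΔ hz hΔw hyy
    (fun p => ((range p).filter (fun a => RB T0 S z y p a)).card) hcardR
  rw [hprod] at key
  -- the sum as a number
  have hcount : ∑ q ∈ Icc 1 N, muB T0 z y0 q * (if ∀ s ∈ S, ∀ p ∈ pz y, ¬ (p : ℤ) ∣ (q : ℤ) + s then 1 else 0) =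
      (((Icc 1 (N - z)).filter (fun n => ∀ p ∈ pz y0, ¬ RB T0 S z y p (n % p))).card : ℝ) := by
    have h1 : ∀ q ∈ Icc 1 N, muB T0 z y0 q * (if ∀ s ∈ S, ∀ p ∈ pz y, ¬ (p : ℤ) ∣ (q : ℤ) + s then (1 : ℝ) else 0) =
        if (z < q ∧ (∀ t ∈ T0, Ro y0 (q - z + t)) ∧ ∀ s ∈ S, ∀ p ∈ pz y, ¬ (p : ℤ) ∣ (q : ℤ) + s) then (1 : ℝ) else 0 := by
      intro q _
      unfold muB
      rw [rT_eq]
      by_cases a1 : z < q <;> by_cases a2 : (∀ t ∈ T0, Ro y0 (q - z + t)) <;>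
        by_cases a3 : (∀ s ∈ S, ∀ p ∈ pz y, ¬ (p : ℤ) ∣ (q : ℤ) + s)
      · rw [if_pos a1, if_pos a2, if_pos a3, if_pos ⟨a1, a2, a3⟩, one_mul]
      · rw [if_pos a1, if_pos a2, if_neg a3, mul_zero, if_neg (fun h => a3 h.2.2)]
      · rw [if_pos a1, if_neg a2, zero_mul, if_neg (fun h => a2 h.2.1)]
      · rw [if_pos a1, if_neg a2, zero_mul, if_neg (fun h => a2 h.2.1)]
      · rw [if_neg a1, zero_mul, if_neg (fun h => a1 h.1)]
      · rw [if_neg a1, zero_mul, if_neg (fun h => a1 h.1)]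
      · rw [if_neg a1, zero_mul, if_neg (fun h => a1 h.1)]
      · rw [if_neg a1, zero_mul, if_neg (fun h => a1 h.1)]
    rw [sum_congr rfl h1, ← sum_filter, sum_const, nsmul_eq_mul, mul_one]
    congr 1
    symm
    have hiff : ∀ n : ℕ, (∀ p ∈ pz y0, ¬ RB T0 S z y p (n % p)) ↔
        (∀ t ∈ T0, Ro y0 (n + t)) ∧ ∀ s ∈ S, ∀ p ∈ pz y, ¬ (p : ℤ) ∣ ((n + z : ℕ) : ℤ) + s := by
      intro n
      constructor
      · intro h
        refine ⟨fun t ht p hp hpy hd => ?_, fun s hs p hp hd => ?_⟩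
        · refine h p (mem_pz.2 ⟨hpy, hp⟩) ((RB_mod _ _ _ _ _ _).2 ?_)
          exact Or.inl ⟨t, ht, hd⟩
        · have hp' := mem_pz.1 hp
          refine h p (mem_pz.2 ⟨hp'.1.trans hyy, hp'.2⟩) ((RB_mod _ _ _ _ _ _).2 ?_)
          refine Or.inr ⟨hp'.1, s, hs, ?_⟩
          push_cast at hd
          exact hd
      · rintro ⟨h1, h2⟩ p hp h
        have hp' := mem_pz.1 hp
        rcases (RB_mod _ _ _ _ _ _).1 h with ⟨t, ht, hd⟩ | ⟨hpy, s, hs, hd⟩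
        · exact h1 t ht p hp'.2 hp'.1 hd
        · refine h2 s hs p (mem_pz.2 ⟨hpy, hp'.2⟩) ?_
          push_cast
          exact hd
    refine card_bij (fun n _ => n + z) ?_ ?_ ?_
    · intro n hn
      rw [mem_filter, mem_Icc, hiff] at hn
      rw [mem_filter, mem_Icc]
      refine ⟨by omega, by omega, ?_, hn.2.2⟩
      rw [Nat.add_sub_cancel]
      exact hn.2.1
    · intro n _ n' _ h
      exact Nat.add_right_cancel h
    · intro q hq
      rw [mem_filter, mem_Icc] at hq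
      obtain ⟨⟨hq1, hqN⟩, hzq, h1, h2⟩ := hq
      refine ⟨q - z, ?_, by omega⟩
      rw [mem_filter, mem_Icc, hiff]
      refine ⟨by omega, h1, ?_⟩
      rw [show q - z + z = q by omega]
      exact h2
  rw [hcount]
  have hV0 : 0 ≤ VT y0 T0 * PB (fz T0 z) S w y ∧ VT y0 T0 * PB (fz T0 z) S w y ≤ 1 := by
    rw [← hprod]
    have hfac : ∀ p ∈ pz y0, 0 ≤ 1 - ((((range p).filter (fun a => RB T0 S z y p a)).card : ℕ) : ℝ) / p ∧
        1 - ((((range p).filter (fun a => RB T0 S z y p a)).card : ℕ) : ℝ) / p ≤ 1 := by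
      intro p _
      have h1 : ((range p).filter (fun a => RB T0 S z y p a)).card ≤ p := (card_filter_le _ _).trans (by simp)
      have h2 : (((range p).filter (fun a => RB T0 S z y p a)).card : ℝ) ≤ p := by exact_mod_cast h1
      have h3 : (((range p).filter (fun a => RB T0 S z y p a)).card : ℝ) / p ≤ 1 :=
        div_le_one_of_le₀ h2 (Nat.cast_nonneg _)
      have h4 : 0 ≤ (((range p).filter (fun a => RB T0 S z y p a)).card : ℝ) / p := by positivity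
      constructor <;> linarith
    exact ⟨prod_nonneg fun p hp => (hfac p hp).1,
      prod_le_one (fun p hp => (hfac p hp).1) fun p hp => (hfac p hp).2⟩
  have hXN : ((N - z : ℕ) : ℝ) ≤ N := by exact_mod_cast Nat.sub_le N z
  have hNX : (N : ℝ) - Δ ≤ ((N - z : ℕ) : ℝ) := by
    have h1 : N ≤ (N - z) + Δ := by omega
    have h2 : (N : ℝ) ≤ ((N - z : ℕ) : ℝ) + Δ := by exact_mod_cast h1
    linarith
  have h5 := abs_core hV0.1 hV0.2 (by positivity : (0 : ℝ) ≤ (1 / 2) ^ b) hXN hNX (Nat.cast_nonneg Δ) key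
  rw [← mul_assoc] at h5
  refine h5.trans (add_le_add le_rfl ?_)
  -- the error
  obtain ⟨u, hu⟩ : ∃ u : ℕ, u = y0 ^ (C0 * b) := ⟨_, rfl⟩
  have hb1 : 1 ≤ C0 * b := Nat.mul_pos hC0 (by omega)
  have hyu : y0 ≤ u := by
    rw [hu]
    exact Nat.le_self_pow (by omega) y0
  have hu16 : u ^ 16 ≤ N := by
    rw [hu, ← pow_mul]
    have : C0 * b * 16 = 16 * C0 * b := by ring
    rw [this]
    exact hyN
  have hu0 : (0 : ℝ) ≤ u := Nat.cast_nonneg _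
  have hN0 : (0 : ℝ) < N := by exact_mod_cast hN1
  have huN : (u : ℝ) ≤ (N : ℝ) ^ (1 / 16 : ℝ) := by
    have h1 : (u : ℝ) ^ (16 : ℕ) ≤ N := by exact_mod_cast hu16
    have h2 : (u : ℝ) = ((u : ℝ) ^ (16 : ℕ)) ^ (1 / 16 : ℝ) := by
      rw [← Real.rpow_natCast, ← Real.rpow_mul hu0]
      norm_num
    rw [h2]
    exact Real.rpow_le_rpow (by positivity) h1 (by norm_num)
  have hE : ((JJ y0 : ℝ) + 2) * ((y0 : ℝ) ^ (2 * (C0 * b)) * (K0 * (y0 : ℝ) ^ (2 * (C0 * b)))) ≤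
      2 * K0 * (N : ℝ) ^ (5 / 16 : ℝ) := by
    have e1 : (y0 : ℝ) ^ (2 * (C0 * b)) = (u : ℝ) ^ 2 := by
      rw [hu]
      push_cast
      rw [← pow_mul]
      congr 1
      ring
    have e2 : (JJ y0 : ℝ) + 2 ≤ 2 * u := by
      have h1 := JJ_bd hy2
      have h2 : JJ y0 + 2 ≤ 2 * u := h1.trans (Nat.mul_le_mul_left 2 hyu)
      exact_mod_cast h2
    have e3 : (u : ℝ) ^ 5 ≤ (N : ℝ) ^ (5 / 16 : ℝ) := by
      calc (u : ℝ) ^ 5 ≤ ((N : ℝ) ^ (1 / 16 : ℝ)) ^ 5 := pow_le_pow_left₀ hu0 huN 5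
        _ = (N : ℝ) ^ (5 / 16 : ℝ) := by
          rw [← Real.rpow_natCast, ← Real.rpow_mul hN0.le]
          norm_num
    rw [e1]
    calc ((JJ y0 : ℝ) + 2) * ((u : ℝ) ^ 2 * (K0 * (u : ℝ) ^ 2)) ≤ 2 * u * ((u : ℝ) ^ 2 * (K0 * (u : ℝ) ^ 2)) :=
          mul_le_mul_of_nonneg_right e2 (by positivity)
      _ = 2 * K0 * (u : ℝ) ^ 5 := by ring
      _ ≤ _ := mul_le_mul_of_nonneg_left e3 (by positivity)
  have hN5 : (1 : ℝ) ≤ (N : ℝ) ^ (5 / 16 : ℝ) := Real.one_le_rpow (by exact_mod_cast hN1) (by norm_num)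
  calc _ ≤ 2 * K0 * (N : ℝ) ^ (5 / 16 : ℝ) + Δ := add_le_add hE le_rfl
    _ ≤ 2 * K0 * (N : ℝ) ^ (5 / 16 : ℝ) + Δ * (N : ℝ) ^ (5 / 16 : ℝ) :=
        add_le_add le_rfl (le_mul_of_one_le_right (Nat.cast_nonneg Δ) hN5)
    _ = (2 * K0 + Δ) * (N : ℝ) ^ (5 / 16 : ℝ) := by ring
    _ ≤ (N : ℝ) ^ (3 / 16 : ℝ) * (N : ℝ) ^ (5 / 16 : ℝ) := mul_le_mul_of_nonneg_right hN (by positivity)
    _ = (N : ℝ) ^ (1 / 2 : ℝ) := by
        rw [← Real.rpow_add hN0]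
        norm_num

lemma W_dvd' {w p : ℕ} (hp : p ∈ pz w) : p ∣ ∏ q ∈ pz w, q := dvd_prod_of_mem _ hp

theorem bcntT (m k Δ : ℕ) : ∃ C0 : ℕ, 1 ≤ C0 ∧ ∀ b : ℕ, C0 ≤ b → ∀ᶠ N : ℕ in atTop, ∀ T0 : Finset ℕ, T0.card = m →
    (∀ h ∈ T0, h ≤ Δ) → ∀ z ∈ T0, ∀ w y y0 : ℕ, 2 ≤ w → Δ < w → w ≤ y → y ≤ y0 → y0 ^ (C0 * b) ≤ N → ∀ H : ℕ,
    ∀ T ⊆ AW w 0 H, T.card ≤ k →
    |Ft (muB T0 z y0) N y T - N * VT y0 T0 * PB (fz T0 z) (sT T) w y| ≤
      (1 / 2) ^ b * (N * VT y0 T0 * PB (fz T0 z) (sT T) w y) + (N : ℝ) ^ (1 / 2 : ℝ) := by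
  classical
  obtain ⟨C0, hC0, h⟩ := core m k Δ
  refine ⟨C0, hC0, fun b hb => ?_⟩
  filter_upwards [h b hb] with N hN
  intro T0 hm hΔ z hz w y y0 hw hΔw hwy hyy hyN H T hT hTk
  have h1 := hN T0 hm hΔ z hz w y y0 hw hΔw hwy hyy hyN (sT T) (card_image_le.trans hTk) ?_
  · have h2 : Ft (muB T0 z y0) N y T = ∑ q ∈ Icc 1 N, muB T0 z y0 q *
        (if ∀ s ∈ sT T, ∀ p ∈ pz y, ¬ (p : ℤ) ∣ (q : ℤ) + s then 1 else 0) := by
      unfold Ft
      refine sum_congr rfl fun q _ => ?_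
      congr 1
      have key : (∀ s ∈ sT T, ∀ p ∈ pz y, ¬ (p : ℤ) ∣ (q : ℤ) + s) ↔ ∀ t ∈ T, Ro y (q + t) := by
        unfold sT Ro
        constructor
        · intro h3 t ht p hp hpy hd
          refine h3 (t : ℤ) (mem_image_of_mem _ ht) p (mem_pz.2 ⟨hpy, hp⟩) ?_
          have := Int.natCast_dvd_natCast.2 hd
          push_cast at this
          exact this
        · rintro h3 s hs p hp hd
          obtain ⟨t, ht, rfl⟩ := mem_image.1 hs
          refine h3 t ht p (mem_pz.1 hp).2 (mem_pz.1 hp).1 ?_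
          rw [← Nat.cast_add] at hd
          exact Int.natCast_dvd_natCast.1 hd
      by_cases hh : ∀ t ∈ T, Ro y (q + t)
      · rw [if_pos (key.2 hh)]
        refine prod_eq_one fun t ht => ?_
        unfold ro
        rw [if_pos (hh t ht)]
      · rw [if_neg (fun h4 => hh (key.1 h4))]
        push Not at hh
        obtain ⟨t, ht, hn⟩ := hh
        refine prod_eq_zero ht ?_
        unfold ro
        rw [if_neg hn]
    rw [h2]
    exact h1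
  · intro s hs p hp
    unfold sT at hs
    obtain ⟨t, ht, rfl⟩ := mem_image.1 hs
    have h3 := (mem_filter.1 (hT ht)).2
    rw [zero_add] at h3
    exact Int.natCast_dvd_natCast.2 ((W_dvd' hp).trans h3)

theorem bcntG (m k Δ : ℕ) : ∃ C0 : ℕ, 1 ≤ C0 ∧ ∀ b : ℕ, C0 ≤ b → ∀ᶠ N : ℕ in atTop, ∀ T0 : Finset ℕ, T0.card = m →
    (∀ h ∈ T0, h ≤ Δ) → ∀ z ∈ T0, ∀ w y y0 : ℕ, 2 ≤ w → Δ < w → w ≤ y → y ≤ y0 → y0 ^ (C0 * b) ≤ N → ∀ H : ℕ,
    ∀ T ⊆ AW w N H, T.card ≤ k →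
    |Fs (muB T0 z y0) N y T - N * VT y0 T0 * PB (fz T0 z) (sG N T) w y| ≤
      (1 / 2) ^ b * (N * VT y0 T0 * PB (fz T0 z) (sG N T) w y) + (N : ℝ) ^ (1 / 2 : ℝ) := by
  classical
  obtain ⟨C0, hC0, h⟩ := core m k Δ
  refine ⟨C0, hC0, fun b hb => ?_⟩
  filter_upwards [h b hb] with N hN
  intro T0 hm hΔ z hz w y y0 hw hΔw hwy hyy hyN H T hT hTk
  have h1 := hN T0 hm hΔ z hz w y y0 hw hΔw hwy hyy hyN (sG N T) (card_image_le.trans hTk) ?_
  · have h2 : Fs (muB T0 z y0) N y T = ∑ q ∈ Icc 1 N, muB T0 z y0 q *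
        (if ∀ s ∈ sG N T, ∀ p ∈ pz y, ¬ (p : ℤ) ∣ (q : ℤ) + s then 1 else 0) := by
      unfold Fs
      refine sum_congr rfl fun q hq => ?_
      have hqN := (mem_Icc.1 hq).2
      congr 1
      have hcast : ∀ t : ℕ, ((N - q + t : ℕ) : ℤ) = -((q : ℤ) + -((N : ℤ) + t)) := by
        intro t
        push_cast [Nat.cast_sub hqN]
        ring
      have key : (∀ s ∈ sG N T, ∀ p ∈ pz y, ¬ (p : ℤ) ∣ (q : ℤ) + s) ↔ ∀ t ∈ T, Ro y (N - q + t) := by
        unfold sG Ro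
        constructor
        · intro h3 t ht p hp hpy hd
          refine h3 (-((N : ℤ) + t)) (mem_image_of_mem _ ht) p (mem_pz.2 ⟨hpy, hp⟩) ?_
          have := Int.natCast_dvd_natCast.2 hd
          rw [hcast t] at this
          exact (dvd_neg).1 this
        · rintro h3 s hs p hp hd
          obtain ⟨t, ht, rfl⟩ := mem_image.1 hs
          refine h3 t ht p (mem_pz.1 hp).2 (mem_pz.1 hp).1 ?_
          rw [← Int.natCast_dvd_natCast, hcast t]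
          exact (dvd_neg).2 hd
      by_cases hh : ∀ t ∈ T, Ro y (N - q + t)
      · rw [if_pos (key.2 hh)]
        refine prod_eq_one fun t ht => ?_
        unfold ro
        rw [if_pos (hh t ht)]
      · rw [if_neg (fun h4 => hh (key.1 h4))]
        push Not at hh
        obtain ⟨t, ht, hn⟩ := hh
        refine prod_eq_zero ht ?_
        unfold ro
        rw [if_neg hn]
    rw [h2]
    exact h1
  · intro s hs p hp
    unfold sG at hs
    obtain ⟨t, ht, rfl⟩ := mem_image.1 hs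
    have h3 := (mem_filter.1 (hT ht)).2
    have h4 := Int.natCast_dvd_natCast.2 ((W_dvd' hp).trans h3)
    push_cast at h4
    exact (dvd_neg).2 h4

end Pool.Agent.J4.H14.BP
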